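import Pool.Agent.H61.KU.TC

/-! Board ku_modules (MP_c11ac4_gt), module S6. -/

set_option autoImplicit false

namespace Pool.Agent.H35.KU

open Pool.Agent.H61.KU

theorem pf_s6 (hF : T_FAC) (hS : T_SPN) (hW : T_TWO) (hC : T_CLQ) (hI : T_SIM) (h1 : T_S1)
    (h2 : T_S2) (h3 : T_S3) (hK : T_KEY) (hA : T_ADJ) (hN : T_AIN) : T_S6 := by
  intro ι W _ _ _ _ _ v E h9 hfam T x F hT hxT hxF hFF hr hsub
  have hconf := hfam.conf
  obtain ⟨hTface, hTrk⟩ := hfam.face T hT
  obtain ⟨_, _, _, _, _, _, hFins⟩ := hF ι W v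
  have hT4 := h3 ι W v E h9 hfam T hT
  have hr5 : rk v (insert x T) = 5 := by rw [hFins T x hTface hxT, hTrk]
  have hTF : T ⊆ F := fun i hi => hsub (Finset.mem_insert_of_mem hi)
  have hxF' : x ∈ F := hsub (Finset.mem_insert_self _ _)
  have hex : ∃ x', x' ∈ F ∧ x' ∉ T ∧ x' ≠ x ∧ IsFace v (insert x' T) := by
    by_contra hcon
    have hsp := hS ι W v T F hTface hFF hTF (by
      intro G hG hTG hGF hrG
      exact h1 ι W v E h9 hfam T G hT hG (by rw [hrG, hTrk]) hTG)
    have hle : sp v F ≤ sp v (insert x T) := by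
      refine hsp.trans (Submodule.span_mono (Set.image_mono ?_))
      intro i hi
      rcases hi with hi | ⟨hi1, hi2, hi3⟩
      · exact Finset.mem_coe.2 (Finset.mem_insert_of_mem hi)
      · by_cases h : i = x
        · subst h
          exact Finset.mem_coe.2 (Finset.mem_insert_self _ _)
        · exact absurd ⟨i, hi1, hi2, h, hi3⟩ hcon
    have hle2 : rk v F ≤ rk v (insert x T) := Submodule.finrank_mono hle
    rw [hr, hr5] at hle2
    omega
  obtain ⟨x', hx'F, hx'T, hx'x, hx'face⟩ := hex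
  have hx'C : x' ∉ insert x T := by
    rw [Finset.mem_insert]
    rintro (h | h)
    · exact hx'x h
    · exact hx'T h
  have hCcard : (insert x' (insert x T)).card = 6 := by
    rw [Finset.card_insert_of_notMem hx'C, Finset.card_insert_of_notMem hxT, hT4]
  have hCrk : rk v (insert x' (insert x T)) = 6 := by
    rw [hFins _ _ hxF hx'C, hr5]
  have hCF : insert x' (insert x T) ⊆ F := by
    intro i hi
    rcases Finset.mem_insert.1 hi with rfl | hi
    · exact hx'F
    · exact hsub hi
  have hsymm : ∀ a b, Adj v a b → Adj v b a := fun a b h G hG hG8 => (h G hG hG8).symm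
  have hpair : ∀ G, IsFace v G → G ⊆ F → rk v G + 1 = rk v F →
      ∀ a ∈ insert x' (insert x T), ∀ b ∈ insert x' (insert x T), a ≠ b → a ∈ G ∨ b ∈ G := by
    intro G hG hGF hGr
    have key : ∀ a b, a ∈ F → b ∈ F → Adj v a b → a ∈ G ∨ b ∈ G :=
      fun a b ha hb hab => hN ι W v h9 hconf F G a b hFF hG hGF hGr ha hb hab
    have kx : ∀ b ∈ T, x ∈ G ∨ b ∈ G :=
      fun b hb => key x b hxF' (hTF hb) (hA ι W v E h9 hfam T x hT hxT hxF b hb)
    have kx' : ∀ b ∈ T, x' ∈ G ∨ b ∈ G :=
      fun b hb => key x' b hx'F (hTF hb) (hA ι W v E h9 hfam T x' hT hx'T hx'face b hb)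
    have kxx : x ∈ G ∨ x' ∈ G := by
      by_contra hcon
      rw [not_or] at hcon
      have hTG : T ⊆ G := fun b hb => (kx b hb).resolve_left hcon.1
      obtain ⟨z, hzT, hz⟩ := h1 ι W v E h9 hfam T G hT hG (by omega) hTG
      have hzG : z ∈ G := by
        rw [hz]
        exact Finset.mem_insert_self _ _
      have hzx : z ≠ x := fun h => hcon.1 (h ▸ hzG)
      have hzx' : z ≠ x' := fun h => hcon.2 (h ▸ hzG)
      refine hW ι W v T F x x' z hTface hTF (by omega) hxF' hx'F (hGF hzG) hxT hx'T hzT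
        (Ne.symm hx'x) (Ne.symm hzx') (Ne.symm hzx) hxF hx'face ?_
      rw [← hz]
      exact hG
    intro a ha b hb hab
    rw [Finset.mem_insert, Finset.mem_insert] at ha hb
    rcases ha with rfl | rfl | ha <;> rcases hb with rfl | rfl | hb
    · exact absurd rfl hab
    · exact kxx.symm
    · exact kx' b hb
    · exact kxx
    · exact absurd rfl hab
    · exact kx b hb
    · exact (kx' a ha).symm
    · exact (kx a ha).symm
    · exact key a b (hTF ha) (hTF hb) (hK ι W v E h9 hfam T hT a ha b hb hab)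
  have hFC : F = insert x' (insert x T) :=
    hC ι W v F (insert x' (insert x T)) hconf hFF hCF (by rw [hCcard, hr]) (by rw [hCrk, hr]) hpair
  refine ⟨x', hx'C, hFC, ?_⟩
  obtain ⟨y0, hy0, hE⟩ := h2 ι W v E h9 hfam T x hT hxT hxF
  have hx'T' : x' ∉ insert x (T.erase y0) := by
    rw [Finset.mem_insert]
    rintro (h | h)
    · exact hx'x h
    · exact hx'T (Finset.mem_of_mem_erase h)
  have hsub' : insert x' (insert x (T.erase y0)) ⊆ F := by
    rw [hFC]
    exact Finset.insert_subset_insert _ (Finset.insert_subset_insert _ (Finset.erase_subset _ _))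
  have hface' := (hI ι W v F (insert x' (insert x (T.erase y0))) hFF
    (by rw [hr, hFC, hCcard]) hsub').1
  exact hsymm _ _ (hA ι W v E h9 hfam (insert x (T.erase y0)) x' hE hx'T' hface' x
    (Finset.mem_insert_self _ _))

end Pool.Agent.H35.KU
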